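import Pool.Agent.W_mrdp_h82.Partrec

/-!
MRDP library (helper82), part 4: reduced forms.

Main results (namespace `MRDP`):
* `mrdp_atoms`: for every r.e. `p : Nat -> Prop` there is a finite list `L` of atoms
  (`x i = 1`, `x i + x j = x k`, `x i * x j = x k`) with
  `p n <-> exists x : Nat -> Nat, x 0 = n and all atoms hold`.
* `mrdp_atoms_pos`: the same over positive integers, with `x 0 = n + 1`.
* `mrdp_poly`: one `MvPolynomial (Fin (m+1)) Int`, natural unknowns.
* `exists_re_not_computable`: an r.e. non computable `p : Nat -> Prop`.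
* `undecidable_atoms`, `undecidable_atoms_pos`, `undecidable_poly`.
-/

namespace MRDP

/-- atomic constraints -/
inductive Atom where
  | one (i : ℕ) : Atom
  | add (i j k : ℕ) : Atom
  | mul (i j k : ℕ) : Atom
  deriving DecidableEq

/-- truth of an atom at an assignment -/
def Atom.holds (x : ℕ → ℕ) : Atom → Prop
  | .one i => x i = 1
  | .add i j k => x i + x j = x k
  | .mul i j k => x i * x j = x k

/-- all variables of the atom are smaller than `N` -/
def Atom.lt (N : ℕ) : Atom → Prop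
  | .one i => i < N
  | .add i j k => i < N ∧ j < N ∧ k < N
  | .mul i j k => i < N ∧ j < N ∧ k < N

/-- all atoms of the list hold -/
def Sat (L : List Atom) (x : ℕ → ℕ) : Prop := ∀ a ∈ L, a.holds x

theorem Atom.lt_mono {N M : ℕ} (h : N ≤ M) {a : Atom} (ha : a.lt N) : a.lt M := by
  cases a <;> simp only [Atom.lt] at * <;> omega

theorem Atom.holds_congr {N : ℕ} {a : Atom} (ha : a.lt N) {x y : ℕ → ℕ}
    (h : ∀ i < N, x i = y i) (hx : a.holds x) : a.holds y := by
  cases a with
  | one i =>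
    simp only [Atom.lt, Atom.holds] at *
    rw [← h i ha]; exact hx
  | add i j k =>
    simp only [Atom.lt, Atom.holds] at *
    rw [← h i ha.1, ← h j ha.2.1, ← h k ha.2.2]; exact hx
  | mul i j k =>
    simp only [Atom.lt, Atom.holds] at *
    rw [← h i ha.1, ← h j ha.2.1, ← h k ha.2.2]; exact hx

theorem Sat.congr {N : ℕ} {L : List Atom} (hL : ∀ a ∈ L, a.lt N) {x y : ℕ → ℕ}
    (h : ∀ i < N, x i = y i) (hx : Sat L x) : Sat L y :=
  fun a ha => Atom.holds_congr (hL a ha) h (hx a ha)

theorem sat_append {L M : List Atom} {x : ℕ → ℕ} : Sat (L ++ M) x ↔ Sat L x ∧ Sat M x := by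
  unfold Sat
  constructor
  · intro h
    exact ⟨fun a ha => h a (List.mem_append.mpr (Or.inl ha)),
      fun a ha => h a (List.mem_append.mpr (Or.inr ha))⟩
  · rintro ⟨h1, h2⟩ a ha
    rcases List.mem_append.mp ha with h | h
    · exact h1 a h
    · exact h2 a h

/-- a block of atoms: variables `< N` are given, variables `< M` are used; every admissible
assignment of the given ones extends to a solution. -/
structure Block (s N M : ℕ) (L : List Atom) : Prop where
  le : N ≤ M
  lt : ∀ a ∈ L, a.lt M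
  ext : ∀ x : ℕ → ℕ, (∀ i, s ≤ x i) → ∃ y : ℕ → ℕ, (∀ i, s ≤ y i) ∧ (∀ i < N, y i = x i) ∧ Sat L y

theorem Block.nil (s N : ℕ) : Block s N N [] :=
  ⟨le_refl _, by simp, fun x hx => ⟨x, hx, fun _ _ => rfl, by simp [Sat]⟩⟩

theorem Block.append {s N M K : ℕ} {L L' : List Atom} (h : Block s N M L) (h' : Block s M K L') :
    Block s N K (L ++ L') := by
  refine ⟨le_trans h.le h'.le, ?_, ?_⟩
  · intro a ha
    rcases List.mem_append.mp ha with h1 | h1
    · exact Atom.lt_mono h'.le (h.lt a h1)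
    · exact h'.lt a h1
  · intro x hx
    obtain ⟨y, hy, hyx, hyL⟩ := h.ext x hx
    obtain ⟨z, hz, hzy, hzL⟩ := h'.ext y hy
    refine ⟨z, hz, fun i hi => ?_, ?_⟩
    · rw [hzy i (lt_of_lt_of_le hi h.le), hyx i hi]
    · rw [sat_append]
      exact ⟨Sat.congr h.lt (fun i hi => (hzy i hi).symm) hyL, hzL⟩

/-- add one new variable `M` defined by one atom -/
theorem Block.snoc {s M : ℕ} {a : Atom} (ha : a.lt (M + 1))
    (h : ∀ x : ℕ → ℕ, (∀ i, s ≤ x i) → ∃ v, s ≤ v ∧ a.holds (Function.update x M v)) :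
    Block s M (M + 1) [a] := by
  refine ⟨Nat.le_succ _, ?_, ?_⟩
  · intro b hb
    rw [List.mem_singleton] at hb
    subst hb
    exact ha
  · intro x hx
    obtain ⟨v, hv, hh⟩ := h x hx
    refine ⟨Function.update x M v, ?_, ?_, ?_⟩
    · intro i
      by_cases hi : i = M
      · subst hi; simpa using hv
      · rw [Function.update_of_ne hi]; exact hx i
    · intro i hi
      rw [Function.update_of_ne (by omega)]
    · intro b hb
      rw [List.mem_singleton] at hb
      subst hb
      exact hh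

theorem block_one {s M : ℕ} (hs : s ≤ 1) : Block s M (M + 1) [Atom.one M] :=
  Block.snoc (by simp [Atom.lt]) fun x _ => ⟨1, hs, by simp [Atom.holds]⟩

theorem block_add {s M i j : ℕ} (hi : i < M) (hj : j < M) :
    Block s M (M + 1) [Atom.add i j M] :=
  Block.snoc (by simp [Atom.lt]; omega) fun x hx => ⟨x i + x j, by have := hx i; omega, by
    simp only [Atom.holds]
    rw [Function.update_of_ne (by omega), Function.update_of_ne (by omega),
      Function.update_self]⟩

theorem block_mul {s M i j : ℕ} (hs : s ≤ 1) (hi : i < M) (hj : j < M) :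
    Block s M (M + 1) [Atom.mul i j M] :=
  Block.snoc (by simp [Atom.lt]; omega) fun x hx => ⟨x i * x j, by
      have h1 := hx i
      have h2 := hx j
      rcases Nat.lt_or_ge 0 s with h | h
      · have : s = 1 := by omega
        subst this
        exact Nat.mul_pos h1 h2
      · omega, by
    simp only [Atom.holds]
    rw [Function.update_of_ne (by omega), Function.update_of_ne (by omega),
      Function.update_self]⟩

/-- `f` can be computed by atoms, as a difference of two variables; the real argument of `f`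
is `x i - s`. -/
def Comp (s : ℕ) (f : (ℕ → ℕ) → ℤ) : Prop :=
  ∃ N0, (∀ x y : ℕ → ℕ, (∀ i < N0, x i = y i) → f x = f y) ∧
    ∀ N ≥ N0, ∃ M L, Block s N M L ∧ ∃ a b, a < M ∧ b < M ∧
      ∀ x : ℕ → ℕ, (∀ i, s ≤ x i) → Sat L x → (x a : ℤ) - x b = f (fun i => x i - s)

theorem sat_singleton {a : Atom} {x : ℕ → ℕ} : Sat [a] x ↔ a.holds x := by
  simp [Sat]

theorem comp_proj (s : ℕ) (hs : s ≤ 1) (i : ℕ) : Comp s fun x => x i := by
  refine ⟨i + 1, fun x y h => by simp [h i (Nat.lt_succ_self i)], fun N hN => ?_⟩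
  have hb := (block_one (s := s) (M := N) hs)
  rcases Nat.lt_or_ge 0 s with h | h
  · have h1 : s = 1 := by omega
    subst h1
    refine ⟨_, _, hb, i, N, by omega, by omega, fun x hx hsat => ?_⟩
    rw [sat_singleton] at hsat
    simp only [Atom.holds] at hsat
    rw [hsat]
    have := hx i
    push_cast [Nat.cast_sub this]
    ring
  · have h1 : s = 0 := by omega
    subst h1
    refine ⟨_, _, hb.append (block_add (i := i) (j := N) (by omega) (by omega)), N + 1, N,
      by omega, by omega, fun x hx hsat => ?_⟩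
    rw [sat_append, sat_singleton, sat_singleton] at hsat
    simp only [Atom.holds] at hsat
    rw [← hsat.2, hsat.1]
    push_cast
    simp

theorem comp_natconst (s : ℕ) (hs : s ≤ 1) (n : ℕ) : ∀ N, ∃ M L, Block s N M L ∧ ∃ a b,
    a < M ∧ b < M ∧ ∀ x : ℕ → ℕ, (∀ i, s ≤ x i) → Sat L x → x b = 1 ∧ x a = n + 1 := by
  intro N
  induction n with
  | zero =>
    refine ⟨_, _, block_one (s := s) (M := N) hs, N, N, by omega, by omega, fun x _ h => ?_⟩
    rw [sat_singleton] at h
    simp only [Atom.holds] at h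
    simp [h]
  | succ n ih =>
    obtain ⟨M, L, hB, a, b, ha, hb, h⟩ := ih
    refine ⟨_, _, hB.append (block_add (i := a) (j := b) ha hb), M, b, by omega, by omega,
      fun x hx hsat => ?_⟩
    rw [sat_append, sat_singleton] at hsat
    simp only [Atom.holds] at hsat
    obtain ⟨h1, h2⟩ := h x hx hsat.1
    refine ⟨h1, ?_⟩
    rw [← hsat.2, h1, h2]

theorem comp_const (s : ℕ) (hs : s ≤ 1) (n : ℤ) : Comp s fun _ => n := by
  refine ⟨0, fun _ _ _ => rfl, fun N _ => ?_⟩
  obtain ⟨M, L, hB, a, b, ha, hb, h⟩ := comp_natconst s hs n.natAbs N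
  rcases le_total 0 n with hn | hn
  · refine ⟨M, L, hB, a, b, ha, hb, fun x hx hsat => ?_⟩
    obtain ⟨h1, h2⟩ := h x hx hsat
    rw [h1, h2]
    push_cast
    rw [abs_of_nonneg hn]
    ring
  · refine ⟨M, L, hB, b, a, hb, ha, fun x hx hsat => ?_⟩
    obtain ⟨h1, h2⟩ := h x hx hsat
    rw [h1, h2]
    push_cast
    rw [abs_of_nonpos hn]
    ring

theorem comp_sub (s : ℕ) {f g : (ℕ → ℕ) → ℤ} (hf : Comp s f) (hg : Comp s g) :
    Comp s fun x => f x - g x := by
  obtain ⟨N1, d1, h1⟩ := hf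
  obtain ⟨N2, d2, h2⟩ := hg
  refine ⟨max N1 N2, fun x y h => ?_, fun N hN => ?_⟩
  · show f x - g x = f y - g y
    rw [d1 x y fun i hi => h i (lt_of_lt_of_le hi (le_max_left _ _)),
      d2 x y fun i hi => h i (lt_of_lt_of_le hi (le_max_right _ _))]
  · obtain ⟨M, L, hB, a, b, ha, hb, hh⟩ := h1 N (le_trans (le_max_left _ _) hN)
    obtain ⟨K, L', hB', c, d, hc, hd, hh'⟩ := h2 M
      (le_trans (le_trans (le_max_right _ _) hN) hB.le)
    have hMK := hB'.le
    refine ⟨_, _, ((hB.append hB').append (block_add (i := a) (j := d) (by omega) hd)).append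
      (block_add (i := b) (j := c) (by omega) (by omega)), K, K + 1, by omega, by omega,
      fun x hx hsat => ?_⟩
    rw [sat_append, sat_append, sat_append, sat_singleton, sat_singleton] at hsat
    obtain ⟨⟨⟨s1, s2⟩, s3⟩, s4⟩ := hsat
    simp only [Atom.holds] at s3 s4
    have e1 := hh x hx s1
    have e2 := hh' x hx s2
    show _ = f _ - g _
    rw [← e1, ← e2, ← s3, ← s4]
    push_cast
    ring

theorem comp_mul (s : ℕ) (hs : s ≤ 1) {f g : (ℕ → ℕ) → ℤ} (hf : Comp s f) (hg : Comp s g) :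
    Comp s fun x => f x * g x := by
  obtain ⟨N1, d1, h1⟩ := hf
  obtain ⟨N2, d2, h2⟩ := hg
  refine ⟨max N1 N2, fun x y h => ?_, fun N hN => ?_⟩
  · show f x * g x = f y * g y
    rw [d1 x y fun i hi => h i (lt_of_lt_of_le hi (le_max_left _ _)),
      d2 x y fun i hi => h i (lt_of_lt_of_le hi (le_max_right _ _))]
  · obtain ⟨M, L, hB, a, b, ha, hb, hh⟩ := h1 N (le_trans (le_max_left _ _) hN)
    obtain ⟨K, L', hB', c, d, hc, hd, hh'⟩ := h2 M
      (le_trans (le_trans (le_max_right _ _) hN) hB.le)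
    have hMK := hB'.le
    -- K = ac, K+1 = bd, K+2 = ad, K+3 = bc, K+4 = ac+bd, K+5 = ad+bc
    refine ⟨_, _, ((((((hB.append hB').append
      (block_mul (i := a) (j := c) hs (by omega) (by omega))).append
      (block_mul (i := b) (j := d) hs (by omega) (by omega))).append
      (block_mul (i := a) (j := d) hs (by omega) (by omega))).append
      (block_mul (i := b) (j := c) hs (by omega) (by omega))).append
      (block_add (i := K) (j := K + 1) (by omega) (by omega))).append
      (block_add (i := K + 2) (j := K + 3) (by omega) (by omega)), K + 4, K + 5,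
      by omega, by omega,
      fun x hx hsat => ?_⟩
    simp only [sat_append, sat_singleton] at hsat
    obtain ⟨⟨⟨⟨⟨⟨⟨s1, s2⟩, s3⟩, s4⟩, s5⟩, s6⟩, s7⟩, s8⟩ := hsat
    simp only [Atom.holds] at s3 s4 s5 s6 s7 s8
    have e1 := hh x hx s1
    have e2 := hh' x hx s2
    show _ = f _ * g _
    rw [← e1, ← e2, ← s7, ← s8]
    rw [show K + 1 + 1 + 1 = K + 3 from rfl, show K + 1 + 1 = K + 2 from rfl] at *
    rw [← s3, ← s4, ← s5, ← s6]
    push_cast
    ring

theorem comp_isPoly (s : ℕ) (hs : s ≤ 1) {f : (ℕ → ℕ) → ℤ} (hf : IsPoly f) : Comp s f := by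
  induction hf with
  | proj i => exact comp_proj s hs i
  | const n => exact comp_const s hs n
  | sub _ _ ih1 ih2 => exact comp_sub s ih1 ih2
  | mul _ _ ih1 ih2 => exact comp_mul s hs ih1 ih2

theorem atoms_of_isPoly (s : ℕ) (hs : s ≤ 1) {f : (ℕ → ℕ) → ℤ} (hf : IsPoly f) :
    ∃ L : List Atom, ∀ n : ℕ, (∃ y : ℕ → ℕ, y 0 = n ∧ f y = 0) ↔
      ∃ x : ℕ → ℕ, (∀ i, s ≤ x i) ∧ x 0 = n + s ∧ Sat L x := by
  obtain ⟨N0, d, h⟩ := comp_isPoly s hs hf
  obtain ⟨M, L, hB, a, b, ha, hb, hh⟩ := h (max N0 1) (le_max_left _ _)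
  refine ⟨L ++ [Atom.one M] ++ [Atom.mul a M b], fun n => ?_⟩
  constructor
  · rintro ⟨y, hy0, hy⟩
    obtain ⟨x, hx, hxN, hxL⟩ := (hB.append (block_one hs)).ext (fun i => y i + s) (by simp)
    refine ⟨x, hx, by rw [hxN 0 (by simp)]; simp [hy0], ?_⟩
    rw [sat_append] at hxL
    have e := hh x hx hxL.1
    have e2 : f (fun i => x i - s) = f y := by
      apply d
      intro i hi
      show x i - s = y i
      rw [hxN i (lt_of_lt_of_le hi (le_max_left _ _))]
      omega
    rw [e2, hy] at e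
    rw [sat_append, sat_append]
    refine ⟨hxL, ?_⟩
    rw [sat_singleton]
    have h1 := hxL.2
    rw [sat_singleton] at h1
    simp only [Atom.holds] at h1 ⊢
    rw [h1]
    omega
  · rintro ⟨x, hx, hx0, hsat⟩
    simp only [sat_append, sat_singleton, Atom.holds] at hsat
    obtain ⟨⟨s1, s2⟩, s3⟩ := hsat
    refine ⟨fun i => x i - s, by show x 0 - s = n; omega, ?_⟩
    rw [← hh x hx s1, ← s3, s2]
    simp

/-- MRDP, one integer polynomial with the parameter as variable `0`. -/
theorem mrdp_isPoly {p : ℕ → Prop} (hp : REPred p) :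
    ∃ f : (ℕ → ℕ) → ℤ, IsPoly f ∧ ∀ n, p n ↔ ∃ y : ℕ → ℕ, y 0 = n ∧ f y = 0 := by
  obtain ⟨m, g, hg, h⟩ := dioph_fin (mrdp hp)
  let e : Option Empty ⊕ Fin m → ℕ := Sum.elim (fun _ => 0) (fun i => i.1 + 1)
  refine ⟨fun y => g (y ∘ e), (Poly.map e (⟨g, hg⟩ : Poly _)).isPoly, fun n => ?_⟩
  have h' := h (fun _ => n)
  have h2 : p n ↔ ∃ t : Fin m → ℕ, g (Sum.elim (fun _ => n) t) = 0 := h'
  rw [h2]
  constructor
  · rintro ⟨t, ht⟩
    refine ⟨fun i => if hi : 0 < i ∧ i - 1 < m then t ⟨i - 1, hi.2⟩ else n, by simp, ?_⟩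
    rw [← ht]
    show g _ = g _
    congr 1
    funext i
    rcases i with (_ | i) | i
    · simp [e]
    · exact i.elim
    · simp [e]
  · rintro ⟨y, hy0, hy⟩
    refine ⟨fun i => y (i.1 + 1), ?_⟩
    rw [← hy]
    show g _ = g _
    congr 1
    funext i
    rcases i with (_ | i) | i
    · simp [e, hy0]
    · exact i.elim
    · simp [e]

/-- MRDP in atomic form over the naturals. -/
theorem mrdp_atoms {p : ℕ → Prop} (hp : REPred p) :
    ∃ L : List Atom, ∀ n, p n ↔ ∃ x : ℕ → ℕ, x 0 = n ∧ Sat L x := by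
  obtain ⟨f, hf, h⟩ := mrdp_isPoly hp
  obtain ⟨L, hL⟩ := atoms_of_isPoly 0 (by omega) hf
  refine ⟨L, fun n => ?_⟩
  rw [h, hL]
  simp

/-- MRDP in atomic form over the positive integers (parameter `n + 1`). -/
theorem mrdp_atoms_pos {p : ℕ → Prop} (hp : REPred p) :
    ∃ L : List Atom, ∀ n, p n ↔ ∃ x : ℕ → ℕ, (∀ i, 0 < x i) ∧ x 0 = n + 1 ∧ Sat L x := by
  obtain ⟨f, hf, h⟩ := mrdp_isPoly hp
  obtain ⟨L, hL⟩ := atoms_of_isPoly 1 (le_refl _) hf
  refine ⟨L, fun n => ?_⟩
  rw [h, hL]
  exact Iff.rfl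

/-- there is an r.e. set of naturals which is not computable. -/
theorem exists_re_not_computable : ∃ p : ℕ → Prop, REPred p ∧ ¬ ComputablePred p := by
  refine ⟨fun n => (Nat.Partrec.Code.eval (Denumerable.ofNat Nat.Partrec.Code n) 0).Dom, ?_, ?_⟩
  · have h1 : REPred fun c : Nat.Partrec.Code => (c.eval 0).Dom :=
      ComputablePred.halting_problem_re 0
    have h2 : Computable fun n : ℕ => Denumerable.ofNat Nat.Partrec.Code n :=
      Computable.ofNat Nat.Partrec.Code
    exact Partrec.comp h1 h2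
  · intro h
    apply ComputablePred.halting_problem 0
    have h2 : Computable fun c : Nat.Partrec.Code => Encodable.encode c := Computable.encode
    obtain ⟨f, hf, hpf⟩ := ComputablePred.computable_iff.mp h
    apply ComputablePred.computable_iff.mpr
    refine ⟨fun c => f (Encodable.encode c), hf.comp h2, ?_⟩
    funext c
    have := congrFun hpf (Encodable.encode c)
    simpa using this

/-- Hilbert's tenth problem, atomic form: solvability of a fixed finite system in naturals,
as a predicate of the parameter, is not computable. -/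
theorem undecidable_atoms : ∃ L : List Atom,
    ¬ ComputablePred fun n : ℕ => ∃ x : ℕ → ℕ, x 0 = n ∧ Sat L x := by
  obtain ⟨p, hp, hn⟩ := exists_re_not_computable
  obtain ⟨L, hL⟩ := mrdp_atoms hp
  refine ⟨L, ?_⟩
  rwa [show (fun n : ℕ => ∃ x : ℕ → ℕ, x 0 = n ∧ Sat L x) = p from
    funext fun n => propext (hL n).symm]

/-- Hilbert's tenth problem, atomic form over the positive integers. -/
theorem undecidable_atoms_pos : ∃ L : List Atom,
    ¬ ComputablePred fun n : ℕ => ∃ x : ℕ → ℕ, (∀ i, 0 < x i) ∧ x 0 = n + 1 ∧ Sat L x := by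
  obtain ⟨p, hp, hn⟩ := exists_re_not_computable
  obtain ⟨L, hL⟩ := mrdp_atoms_pos hp
  refine ⟨L, ?_⟩
  rwa [show (fun n : ℕ => ∃ x : ℕ → ℕ, (∀ i, 0 < x i) ∧ x 0 = n + 1 ∧ Sat L x) = p from
    funext fun n => propext (hL n).symm]

end MRDP
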