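import Mathlib

/-!
MRDP library (helper82), part 1: binomial coefficients and factorials are Diophantine.
-/

namespace MRDP

open Finset

/-- partial sums of the binomial expansion of `(U+1)^n` are smaller than the next power. -/
theorem sum_choose_lt (n U : ℕ) (hU : 2 ^ n < U) (k : ℕ) :
    ∑ j ∈ range k, n.choose j * U ^ j < U ^ k := by
  induction k with
  | zero => simp
  | succ k ih =>
    rw [sum_range_succ, pow_succ]
    have h1 : n.choose k ≤ 2 ^ n := Nat.choose_le_two_pow n k
    have h2 : n.choose k + 1 ≤ U := by omega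
    calc ∑ j ∈ range k, n.choose j * U ^ j + n.choose k * U ^ k
        < U ^ k + n.choose k * U ^ k := by omega
      _ = (n.choose k + 1) * U ^ k := by ring
      _ ≤ U * U ^ k := Nat.mul_le_mul_right _ h2
      _ = U ^ k * U := by ring

theorem choose_eq (n k U : ℕ) (hU : 2 ^ n < U) :
    n.choose k = ((U + 1) ^ n / U ^ k) % U := by
  have hU0 : 0 < U := lt_of_le_of_lt (Nat.zero_le _) hU
  have hc : n.choose k < U := lt_of_le_of_lt (Nat.choose_le_two_pow n k) hU
  have hexp : (U + 1) ^ n = ∑ j ∈ range (n + k + 2), n.choose j * U ^ j := by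
    have h1 : (U + 1) ^ n = ∑ j ∈ range (n + 1), n.choose j * U ^ j := by
      rw [add_pow]
      apply sum_congr rfl
      intro j _
      simp [mul_comm]
    rw [h1]
    apply sum_subset
    · intro j hj
      simp at hj ⊢
      omega
    · intro j _ hj
      simp at hj
      rw [Nat.choose_eq_zero_of_lt (by omega)]
      simp
  have hsplit : ∑ j ∈ range (n + k + 2), n.choose j * U ^ j
      = ∑ j ∈ range k, n.choose j * U ^ j
        + U ^ k * (n.choose k + U * ∑ j ∈ range (n + 1), n.choose (k + 1 + j) * U ^ j) := by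
    have h2 : n + k + 2 = (k + 1) + (n + 1) := by ring
    rw [h2, sum_range_add (fun j => n.choose j * U ^ j) (k + 1) (n + 1), sum_range_succ]
    rw [mul_add, mul_sum, mul_sum]
    rw [add_assoc]
    congr 1
    congr 1
    · ring
    · apply sum_congr rfl
      intro j _
      ring
  rw [hexp, hsplit, Nat.add_mul_div_left _ _ (pow_pos hU0 k),
    Nat.div_eq_of_lt (sum_choose_lt n U hU k), zero_add, Nat.add_mul_mod_self_left,
    Nat.mod_eq_of_lt hc]

/-- factorial from binomial coefficients: `n! = r^n / C(r,n)` for large `r`. -/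
theorem factorial_eq (n r : ℕ) (hr : (n.factorial + 1) * n ^ 2 + n < r) :
    n.factorial = r ^ n / r.choose n := by
  have hnr : n ≤ r := by omega
  have hpos : 0 < r.choose n := Nat.choose_pos hnr
  have hdesc : n.factorial * r.choose n = r.descFactorial n :=
    (Nat.descFactorial_eq_factorial_mul_choose r n).symm
  have hle : n.factorial * r.choose n ≤ r ^ n := by
    rw [hdesc]; exact Nat.descFactorial_le_pow r n
  have hlt : r ^ n < (n.factorial + 1) * r.choose n := by
    -- (r - n)^n <= descFactorial
    rcases Nat.eq_zero_or_pos n with hn | hn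
    · subst hn; simp
    have hd : (r - n) ^ n ≤ r.descFactorial n := by
      calc (r - n) ^ n ≤ (r + 1 - n) ^ n := Nat.pow_le_pow_left (by omega) n
        _ ≤ r.descFactorial n := Nat.pow_sub_le_descFactorial r n
    have hbern : r ^ n ≤ (r - n) ^ n + n * n * r ^ (n - 1) := by
      have key : ∀ m : ℕ, r ^ m * r ≤ (r - n) ^ m * r + m * n * r ^ m := by
        intro m
        induction m with
        | zero => simp
        | succ m ih =>
          have e : r = (r - n) + n := by omega
          have h3 : (r - n) ^ m ≤ r ^ m := Nat.pow_le_pow_left (by omega) m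
          calc r ^ (m + 1) * r = (r ^ m * r) * r := by ring
            _ ≤ ((r - n) ^ m * r + m * n * r ^ m) * r := Nat.mul_le_mul_right _ ih
            _ = (r - n) ^ m * r * r + m * n * r ^ (m + 1) := by ring
            _ = (r - n) ^ m * r * ((r - n) + n) + m * n * r ^ (m + 1) := by rw [← e]
            _ = (r - n) ^ (m + 1) * r + (r - n) ^ m * r * n + m * n * r ^ (m + 1) := by ring
            _ ≤ (r - n) ^ (m + 1) * r + r ^ m * r * n + m * n * r ^ (m + 1) := by
                gcongr
            _ = (r - n) ^ (m + 1) * r + (m + 1) * n * r ^ (m + 1) := by ring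
      have h4 := key n
      have hr0 : 0 < r := by omega
      obtain ⟨m, rfl⟩ : ∃ m, n = m + 1 := ⟨n - 1, by omega⟩
      have h5 : r ^ (m + 1) = r ^ m * r := pow_succ _ _
      have h6 : r ^ (m + 1) * r ≤ ((r - (m + 1)) ^ (m + 1) + (m + 1) * (m + 1) * r ^ m) * r := by
        calc r ^ (m + 1) * r ≤ _ := h4
          _ = ((r - (m + 1)) ^ (m + 1) + (m + 1) * (m + 1) * r ^ m) * r := by
            rw [h5]; ring
      exact Nat.le_of_mul_le_mul_right h6 hr0
    have hrn : r ^ n = r ^ (n - 1) * r := by
      rw [← pow_succ]; congr 1; omega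
    have hr0 : 0 < r ^ (n - 1) := pow_pos (by omega) _
    have hsmall : (n.factorial + 1) * (n * n * r ^ (n - 1)) < r ^ n := by
      rw [hrn]
      calc (n.factorial + 1) * (n * n * r ^ (n - 1))
          = r ^ (n - 1) * ((n.factorial + 1) * n ^ 2) := by ring
        _ < r ^ (n - 1) * r := Nat.mul_lt_mul_of_pos_left (by omega) hr0
    -- (f+1) * desc > f * r^n
    have h7 : n.factorial * r ^ n < (n.factorial + 1) * r.descFactorial n := by
      have h8 : (n.factorial + 1) * r ^ n ≤ (n.factorial + 1) * r.descFactorial n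
          + (n.factorial + 1) * (n * n * r ^ (n - 1)) := by
        rw [← mul_add]
        exact Nat.mul_le_mul_left _ (le_trans hbern (Nat.add_le_add_right hd _))
      nlinarith
    rw [← hdesc] at h7
    have hf : 0 < n.factorial := Nat.factorial_pos n
    have h9 : n.factorial * r ^ n < n.factorial * ((n.factorial + 1) * r.choose n) := by
      calc n.factorial * r ^ n < _ := h7
        _ = n.factorial * ((n.factorial + 1) * r.choose n) := by ring
    exact Nat.lt_of_mul_lt_mul_left h9
  symm
  rw [Nat.div_eq_iff hpos]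
  constructor
  · omega
  · have h10 : (n.factorial + 1) * r.choose n = n.factorial * r.choose n + r.choose n := by ring
    omega

/-- an explicit exponential choice of `r`. -/
theorem factorial_eq' (n : ℕ) :
    n.factorial = ((n + 2) ^ (n + 4)) ^ n / ((n + 2) ^ (n + 4)).choose n := by
  apply factorial_eq
  have h1 : n.factorial ≤ (n + 2) ^ n :=
    le_trans (Nat.factorial_le_pow n) (Nat.pow_le_pow_left (by omega) n)
  have h2 : 1 ≤ (n + 2) ^ n := Nat.one_le_pow _ _ (by omega)
  have h3 : (n + 2) ^ (n + 4) = (n + 2) ^ n * (n + 2) ^ 4 := pow_add _ _ _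
  rw [h3]
  have h4 : (n.factorial + 1) * n ^ 2 + n ≤ (n + 2) ^ n * (2 * n ^ 2 + n) := by
    calc (n.factorial + 1) * n ^ 2 + n ≤ (2 * (n + 2) ^ n) * n ^ 2 + n * (n + 2) ^ n := by
          gcongr
          · omega
          · exact Nat.le_mul_of_pos_right _ (by omega)
      _ = _ := by ring
  refine lt_of_le_of_lt h4 ?_
  apply Nat.mul_lt_mul_of_pos_left _ (by omega)
  nlinarith [sq_nonneg n, Nat.zero_le (n^3), Nat.zero_le (n^4)]

section dioph

open Dioph

variable {α : Type} {f g : (α → ℕ) → ℕ}

theorem choose_dioph (df : DiophFn f) (dg : DiophFn g) :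
    DiophFn fun v => (f v).choose (g v) := by
  have h2 : DiophFn fun v : α → ℕ => 2 ^ (f v) + 1 :=
    add_dioph (pow_dioph (const_dioph 2) df) (const_dioph 1)
  have h3 : DiophFn fun v : α → ℕ =>
      (((2 ^ (f v) + 1) + 1) ^ (f v) / (2 ^ (f v) + 1) ^ (g v)) % (2 ^ (f v) + 1) :=
    mod_dioph (div_dioph (pow_dioph (add_dioph h2 (const_dioph 1)) df) (pow_dioph h2 dg)) h2
  have h4 : (fun v => (f v).choose (g v)) = fun v : α → ℕ =>
      (((2 ^ (f v) + 1) + 1) ^ (f v) / (2 ^ (f v) + 1) ^ (g v)) % (2 ^ (f v) + 1) := by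
    funext v
    exact choose_eq (f v) (g v) _ (Nat.lt_succ_self _)
  rw [h4]
  exact h3

theorem factorial_dioph (df : DiophFn f) : DiophFn fun v => (f v).factorial := by
  have h1 : DiophFn fun v : α → ℕ => (f v + 2) ^ (f v + 4) :=
    pow_dioph (add_dioph df (const_dioph 2)) (add_dioph df (const_dioph 4))
  have h2 : DiophFn fun v : α → ℕ =>
      ((f v + 2) ^ (f v + 4)) ^ (f v) / ((f v + 2) ^ (f v + 4)).choose (f v) :=
    div_dioph (pow_dioph h1 df) (choose_dioph h1 df)
  have h3 : (fun v => (f v).factorial) = fun v : α → ℕ =>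
      ((f v + 2) ^ (f v + 4)) ^ (f v) / ((f v + 2) ^ (f v + 4)).choose (f v) := by
    funext v
    exact factorial_eq' (f v)
  rw [h3]
  exact h2

end dioph

end MRDP
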