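import Pool.Agent.W_mrdp_h82.Binom

/-!
MRDP library (helper82), part 2: the bounded universal quantifier theorem.
-/

namespace MRDP

open Finset

/-! ### number theory -/

/-- the moduli `w/(k+1) - 1`, whose product is `choose (w-1) y`. -/
def md (w k : ℕ) : ℕ := w / (k + 1) - 1

theorem prod_md (w y : ℕ) (hw : ∀ k < y, (k + 1) ∣ w) (_hw0 : 0 < w) :
    ∏ k ∈ range y, md w k = (w - 1).choose y := by
  have h1 : ∏ k ∈ range y, (w - 1 - k) = y.factorial * (w - 1).choose y := by
    rw [← Nat.descFactorial_eq_factorial_mul_choose, Nat.descFactorial_eq_prod_range]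
  have h2 : ∏ k ∈ range y, (w - 1 - k) = y.factorial * ∏ k ∈ range y, md w k := by
    rw [← Finset.prod_range_add_one_eq_factorial, ← Finset.prod_mul_distrib]
    apply Finset.prod_congr rfl
    intro k hk
    rw [Finset.mem_range] at hk
    obtain ⟨c, hc⟩ := hw k hk
    unfold md
    rw [hc, Nat.mul_div_cancel_left _ (Nat.succ_pos k)]
    rw [Nat.mul_sub, mul_one]
    omega
  have h3 : y.factorial * ∏ k ∈ range y, md w k = y.factorial * (w - 1).choose y := by
    rw [← h2, h1]
  exact Nat.eq_of_mul_eq_mul_left (Nat.factorial_pos y) h3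

/-- prime factors of the moduli are large. -/
theorem lt_prime_of_dvd_md {Q k q : ℕ} (hk : k < Q) (hq : q.Prime)
    (hd : q ∣ md (Q.factorial ^ 2) k) : Q < q := by
  by_contra hle
  push Not at hle
  have h1 : (k + 1) ∣ Q.factorial := Nat.dvd_factorial (Nat.succ_pos k) (by omega)
  have h2 : q ∣ Q.factorial := Nat.dvd_factorial hq.pos hle
  have h3 : q ∣ Q.factorial ^ 2 / (k + 1) := by
    obtain ⟨c, hc⟩ := h1
    have : Q.factorial ^ 2 / (k + 1) = c * Q.factorial := by
      rw [pow_two]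
      nth_rewrite 1 [hc]
      rw [mul_assoc, Nat.mul_div_cancel_left _ (Nat.succ_pos k)]
    rw [this]
    exact Dvd.dvd.mul_left h2 c
  have h4 : 0 < Q.factorial ^ 2 / (k + 1) := by
    apply Nat.div_pos _ (Nat.succ_pos k)
    apply Nat.le_of_dvd (pow_pos (Nat.factorial_pos Q) 2)
    exact dvd_trans h1 (dvd_pow_self _ (by norm_num))
  have h5 : q ∣ 1 := by
    have := Nat.dvd_sub h3 hd
    unfold md at this
    rwa [show Q.factorial ^ 2 / (k + 1) - (Q.factorial ^ 2 / (k + 1) - 1) = 1 by omega] at this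
  exact hq.one_lt.ne' (Nat.dvd_one.mp h5)

/-- `w - 1` is congruent to `k` modulo the `k`-th modulus. -/
theorem modEq_md {Q k : ℕ} (hk : k < Q) :
    Q.factorial ^ 2 - 1 ≡ k [MOD md (Q.factorial ^ 2) k] := by
  have h1 : (k + 1) ∣ Q.factorial ^ 2 :=
    dvd_trans (Nat.dvd_factorial (Nat.succ_pos k) (by omega)) (dvd_pow_self _ (by norm_num))
  obtain ⟨c, hc⟩ := h1
  have hpos : 0 < Q.factorial ^ 2 := pow_pos (Nat.factorial_pos Q) 2
  have hc0 : 0 < c := by
    rcases Nat.eq_zero_or_pos c with h | h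
    · subst h; omega
    · exact h
  unfold md
  rw [hc, Nat.mul_div_cancel_left _ (Nat.succ_pos k)]
  have h2 : (k + 1) * c - 1 = k + (k + 1) * (c - 1) := by
    obtain ⟨d, rfl⟩ : ∃ d, c = d + 1 := ⟨c - 1, by omega⟩
    rw [Nat.add_sub_cancel, mul_add, mul_one]
    omega
  rw [h2]
  show (k + (k + 1) * (c - 1)) % (c - 1) = k % (c - 1)
  rw [Nat.add_mul_mod_self_right]

theorem md_ne_zero {Q k : ℕ} (hk : k < Q) (hQ : 2 < Q) : md (Q.factorial ^ 2) k ≠ 0 := by
  have h1 : (k + 1) ∣ Q.factorial := Nat.dvd_factorial (Nat.succ_pos k) (by omega)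
  obtain ⟨c, hc⟩ := h1
  have hf : 2 ≤ Q.factorial := by
    calc 2 = Nat.factorial 2 := rfl
      _ ≤ Q.factorial := Nat.factorial_le (by omega)
  have hc0 : 0 < c := by
    rcases Nat.eq_zero_or_pos c with h | h
    · subst h; omega
    · exact h
  unfold md
  have : Q.factorial ^ 2 / (k + 1) = c * Q.factorial := by
    rw [pow_two]
    nth_rewrite 1 [hc]
    rw [mul_assoc, Nat.mul_div_cancel_left _ (Nat.succ_pos k)]
  rw [this]
  have : 2 ≤ c * Q.factorial := le_trans hf (Nat.le_mul_of_pos_left _ hc0)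
  omega

theorem md_coprime {Q j k : ℕ} (hj : j < Q) (hk : k < Q) (hjk : j ≠ k) :
    Nat.Coprime (md (Q.factorial ^ 2) j) (md (Q.factorial ^ 2) k) := by
  apply Nat.Coprime.symm
  rw [Nat.coprime_iff_gcd_eq_one]
  by_contra hne
  obtain ⟨q, hq, hqd⟩ := Nat.exists_prime_and_dvd hne
  have hqj : q ∣ md (Q.factorial ^ 2) j := dvd_trans hqd (Nat.gcd_dvd_right _ _)
  have hqk : q ∣ md (Q.factorial ^ 2) k := dvd_trans hqd (Nat.gcd_dvd_left _ _)
  have hlt := lt_prime_of_dvd_md hj hq hqj
  have h1 : j ≡ k [MOD q] :=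
    ((modEq_md hj).of_dvd hqj).symm.trans ((modEq_md hk).of_dvd hqk)
  have h2 : j = k := by
    have := h1
    unfold Nat.ModEq at this
    rwa [Nat.mod_eq_of_lt (by omega), Nat.mod_eq_of_lt (by omega)] at this
  exact hjk h2

/-- soundness of the choose constraint -/
theorem exists_lt_modEq {q a u : ℕ} (hq : q.Prime) (h : q ∣ a.choose u) :
    ∃ t < u, a ≡ t [MOD q] := by
  have h1 : q ∣ ∏ j ∈ range u, (a - j) := by
    rw [← Nat.descFactorial_eq_prod_range, Nat.descFactorial_eq_factorial_mul_choose]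
    exact Dvd.dvd.mul_left h _
  rw [hq.prime.dvd_finsetProd_iff] at h1
  obtain ⟨j, hj, hd⟩ := h1
  rw [Finset.mem_range] at hj
  rcases le_total j a with hja | haj
  · exact ⟨j, hj, ((Nat.modEq_iff_dvd' hja).mpr hd).symm⟩
  · exact ⟨a, by omega, Nat.ModEq.refl a⟩

/-- completeness of the choose constraint -/
theorem md_dvd_choose {Q k a u t : ℕ} (hk : k < Q) (hu : u ≤ Q) (ht : t < u)
    (h : a ≡ t [MOD md (Q.factorial ^ 2) k]) : md (Q.factorial ^ 2) k ∣ a.choose u := by
  rcases lt_or_ge a u with hau | hau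
  · rw [Nat.choose_eq_zero_of_lt hau]; exact dvd_zero _
  · have h1 : md (Q.factorial ^ 2) k ∣ u.factorial * a.choose u := by
      rw [← Nat.descFactorial_eq_factorial_mul_choose, Nat.descFactorial_eq_prod_range]
      refine dvd_trans ?_ (Finset.dvd_prod_of_mem _ (Finset.mem_range.mpr ht))
      exact (Nat.modEq_iff_dvd' (by omega)).mp h.symm
    refine Nat.Coprime.dvd_of_dvd_mul_left ?_ h1
    rw [Nat.coprime_iff_gcd_eq_one]
    by_contra hne
    obtain ⟨q, hq, hqd⟩ := Nat.exists_prime_and_dvd hne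
    have h2 : q ∣ md (Q.factorial ^ 2) k := dvd_trans hqd (Nat.gcd_dvd_left _ _)
    have h3 : q ∣ u.factorial := dvd_trans hqd (Nat.gcd_dvd_right _ _)
    have h4 := lt_prime_of_dvd_md hk hq h2
    have h5 := (hq.dvd_factorial).mp h3
    omega

/-! ### polynomials -/

theorem isPoly_congr {α : Type} {f : (α → ℕ) → ℤ} (hf : IsPoly f) {q : ℕ} {x y : α → ℕ}
    (h : ∀ i, x i ≡ y i [MOD q]) : (q : ℤ) ∣ f x - f y := by
  induction hf with
  | proj i =>
    have := (Nat.modEq_iff_dvd.mp (h i).symm)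
    simpa using this
  | const n => simp
  | @sub f g _ _ ih1 ih2 =>
    have := dvd_sub ih1 ih2
    show (q : ℤ) ∣ (f x - g x) - (f y - g y)
    rw [show (f x - g x) - (f y - g y) = f x - f y - (g x - g y) by ring]
    exact this
  | @mul f g _ _ ih1 ih2 =>
    have := dvd_add (Dvd.dvd.mul_right ih1 (g x)) (Dvd.dvd.mul_left ih2 (f y))
    show (q : ℤ) ∣ (f x * g x) - (f y * g y)
    rw [show (f x * g x) - (f y * g y) = (f x - f y) * g x + f y * (g x - g y) by ring]
    exact this

/-- a monotone Diophantine majorant of a polynomial. -/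
theorem isPoly_bound {α : Type} {f : (α → ℕ) → ℤ} (hf : IsPoly f) :
    ∃ B : (α → ℕ) → ℕ, (∀ x y : α → ℕ, (∀ i, x i ≤ y i) → (f x).natAbs ≤ B y) ∧
      (∀ (γ : Type) (s : α → (γ → ℕ) → ℕ), (∀ i, Dioph.DiophFn (s i)) →
        Dioph.DiophFn fun v => B fun i => s i v) := by
  induction hf with
  | proj i =>
    refine ⟨fun x => x i, fun x y h => by simpa using h i, fun γ s hs => hs i⟩
  | const n =>
    refine ⟨fun _ => n.natAbs, fun x y h => le_refl _, fun γ s hs => Dioph.const_dioph _⟩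
  | @sub f g _ _ ih1 ih2 =>
    obtain ⟨B1, h1, d1⟩ := ih1
    obtain ⟨B2, h2, d2⟩ := ih2
    refine ⟨fun x => B1 x + B2 x, fun x y h => ?_,
      fun γ s hs => Dioph.add_dioph (d1 γ s hs) (d2 γ s hs)⟩
    calc (f x - g x).natAbs ≤ (f x).natAbs + (g x).natAbs := Int.natAbs_sub_le _ _
      _ ≤ _ := Nat.add_le_add (h1 x y h) (h2 x y h)
  | @mul f g _ _ ih1 ih2 =>
    obtain ⟨B1, h1, d1⟩ := ih1
    obtain ⟨B2, h2, d2⟩ := ih2
    refine ⟨fun x => B1 x * B2 x, fun x y h => ?_,
      fun γ s hs => Dioph.mul_dioph (d1 γ s hs) (d2 γ s hs)⟩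
    rw [Int.natAbs_mul]
    exact Nat.mul_le_mul (h1 x y h) (h2 x y h)

/-- composition of a polynomial with Diophantine functions (absolute value). -/
theorem poly_comp_dioph {α : Type} {f : (α → ℕ) → ℤ} (hf : IsPoly f) (γ : Type)
    (s : α → (γ → ℕ) → ℕ) (hs : ∀ i, Dioph.DiophFn (s i)) (w : (γ → ℕ) → ℕ)
    (hw : Dioph.DiophFn w) :
    Dioph {v : γ → ℕ | (w v : ℤ) ∣ f fun i => s i v} := by
  -- write f = P - N with P, N natural valued Diophantine
  have key : ∀ {f : (α → ℕ) → ℤ}, IsPoly f → ∃ P N : (α → ℕ) → ℕ,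
      (∀ x, f x = (P x : ℤ) - N x) ∧
      Dioph.DiophFn (fun v => P fun i => s i v) ∧ Dioph.DiophFn (fun v => N fun i => s i v) := by
    intro f hf
    induction hf with
    | proj i => exact ⟨fun x => x i, fun _ => 0, fun x => by simp, hs i, Dioph.const_dioph 0⟩
    | const n =>
      refine ⟨fun _ => n.toNat, fun _ => (-n).toNat, fun x => by
        show n = (n.toNat : ℤ) - ((-n).toNat : ℤ)
        omega,
        Dioph.const_dioph _, Dioph.const_dioph _⟩
    | @sub f g _ _ ih1 ih2 =>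
      obtain ⟨P1, N1, e1, p1, n1⟩ := ih1
      obtain ⟨P2, N2, e2, p2, n2⟩ := ih2
      refine ⟨fun x => P1 x + N2 x, fun x => N1 x + P2 x, fun x => ?_,
        Dioph.add_dioph p1 n2, Dioph.add_dioph n1 p2⟩
      show f x - g x = ((P1 x + N2 x : ℕ) : ℤ) - ((N1 x + P2 x : ℕ) : ℤ)
      rw [e1, e2]; push_cast; ring
    | @mul f g _ _ ih1 ih2 =>
      obtain ⟨P1, N1, e1, p1, n1⟩ := ih1
      obtain ⟨P2, N2, e2, p2, n2⟩ := ih2
      refine ⟨fun x => P1 x * P2 x + N1 x * N2 x, fun x => P1 x * N2 x + N1 x * P2 x,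
        fun x => ?_,
        Dioph.add_dioph (Dioph.mul_dioph p1 p2) (Dioph.mul_dioph n1 n2),
        Dioph.add_dioph (Dioph.mul_dioph p1 n2) (Dioph.mul_dioph n1 p2)⟩
      show f x * g x = ((P1 x * P2 x + N1 x * N2 x : ℕ) : ℤ) - ((P1 x * N2 x + N1 x * P2 x : ℕ) : ℤ)
      rw [e1, e2]; push_cast; ring
  obtain ⟨P, N, e, hp, hn⟩ := key hf
  refine Dioph.ext (Dioph.modEq_dioph hn hp hw) fun v => ?_
  show N _ ≡ P _ [MOD w v] ↔ (w v : ℤ) ∣ f _
  rw [e, Nat.modEq_iff_dvd]

/-! ### finitely many dummies -/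

theorem poly_finite {α β : Type} [DecidableEq β] {f : (α ⊕ β → ℕ) → ℤ} (hf : IsPoly f) :
    ∃ s : Finset β, ∀ s' : Finset β, s ⊆ s' → ∃ g : (α ⊕ s' → ℕ) → ℤ, IsPoly g ∧
      ∀ x : α ⊕ β → ℕ, f x = g (x ∘ Sum.map id Subtype.val) := by
  induction hf with
  | proj i =>
    rcases i with a | b
    · exact ⟨∅, fun s' _ => ⟨fun x => x (Sum.inl a), IsPoly.proj _, fun x => rfl⟩⟩
    · exact ⟨{b}, fun s' h => ⟨fun x => x (Sum.inr ⟨b, h (Finset.mem_singleton_self b)⟩),
        IsPoly.proj _, fun x => rfl⟩⟩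
  | const n => exact ⟨∅, fun s' _ => ⟨fun _ => n, IsPoly.const n, fun x => rfl⟩⟩
  | @sub f1 f2 _ _ ih1 ih2 =>
    obtain ⟨s1, h1⟩ := ih1
    obtain ⟨s2, h2⟩ := ih2
    refine ⟨s1 ∪ s2, fun s' h => ?_⟩
    obtain ⟨g1, p1, e1⟩ := h1 s' (subset_trans Finset.subset_union_left h)
    obtain ⟨g2, p2, e2⟩ := h2 s' (subset_trans Finset.subset_union_right h)
    exact ⟨fun x => g1 x - g2 x, p1.sub p2, fun x => by
      show f1 x - f2 x = _
      rw [e1, e2]⟩
  | @mul f1 f2 _ _ ih1 ih2 =>
    obtain ⟨s1, h1⟩ := ih1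
    obtain ⟨s2, h2⟩ := ih2
    refine ⟨s1 ∪ s2, fun s' h => ?_⟩
    obtain ⟨g1, p1, e1⟩ := h1 s' (subset_trans Finset.subset_union_left h)
    obtain ⟨g2, p2, e2⟩ := h2 s' (subset_trans Finset.subset_union_right h)
    exact ⟨fun x => g1 x * g2 x, p1.mul p2, fun x => by
      show f1 x * f2 x = _
      rw [e1, e2]⟩

/-- a Diophantine set is the projection of a polynomial with finitely many dummies. -/
theorem dioph_fin {α : Type} {S : Set (α → ℕ)} (h : Dioph S) :
    ∃ (n : ℕ) (g : (α ⊕ Fin n → ℕ) → ℤ), IsPoly g ∧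
      ∀ v, v ∈ S ↔ ∃ t : Fin n → ℕ, g (Sum.elim v t) = 0 := by
  classical
  obtain ⟨β, p, hp⟩ := h
  obtain ⟨s, hs⟩ := poly_finite p.isPoly
  obtain ⟨g, pg, eg⟩ := hs s (subset_refl s)
  let e : s ≃ Fin s.card := s.equivFin
  have pg' : IsPoly fun x : α ⊕ Fin s.card → ℕ => g (x ∘ Sum.map id e) := by
    exact (Poly.map (Sum.map id e) (⟨g, pg⟩ : Poly (α ⊕ s))).isPoly
  refine ⟨s.card, _, pg', fun v => ?_⟩
  rw [hp v]
  constructor
  · rintro ⟨t, ht⟩
    refine ⟨fun i => t (e.symm i).1, ?_⟩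
    rw [show p (Sum.elim v t) = g (Sum.elim v t ∘ Sum.map id Subtype.val) from eg _] at ht
    rw [← ht]
    congr 1
    funext i
    rcases i with a | b
    · rfl
    · simp
  · rintro ⟨t, ht⟩
    refine ⟨fun b => if hb : b ∈ s then t (e ⟨b, hb⟩) else 0, ?_⟩
    rw [show p (Sum.elim v _) = g (Sum.elim v _ ∘ Sum.map id Subtype.val) from eg _]
    rw [← ht]
    congr 1
    funext i
    rcases i with a | b
    · rfl
    · simp

theorem forall_fin_dioph {α : Type} : ∀ (n : ℕ) (S : Fin n → Set (α → ℕ)),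
    (∀ i, Dioph (S i)) → Dioph {v | ∀ i, v ∈ S i} := by
  intro n
  induction n with
  | zero =>
    intro S _
    refine Dioph.of_no_dummies _ (Poly.const 0) fun v => ?_
    simp
  | succ n ih =>
    intro S hS
    refine Dioph.ext (Dioph.inter (hS 0) (ih (fun i => S i.succ) fun i => hS i.succ)) fun v => ?_
    constructor
    · rintro ⟨h0, h1⟩ i
      exact Fin.cases h0 h1 i
    · intro h
      exact ⟨h 0, fun i => h i.succ⟩

/-! ### the bounded quantifier theorem -/

theorem bounded_core {n : ℕ} {α : Type} (g : (Option α ⊕ Fin n → ℕ) → ℤ) (hg : IsPoly g)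
    (B : (Option α ⊕ Fin n → ℕ) → ℕ)
    (hB : ∀ x y : Option α ⊕ Fin n → ℕ, (∀ i, x i ≤ y i) → (g x).natAbs ≤ B y)
    (v : α → ℕ) (y : ℕ) :
    (∀ k < y, ∃ t : Fin n → ℕ, g (Sum.elim (Option.elim' k v) t) = 0) ↔
    ∃ u Q : ℕ, ∃ a : Fin n → ℕ,
      Q = B (Sum.elim (Option.elim' y v) fun _ => u) + u + y + 3 ∧
      (∀ i, (Q.factorial ^ 2 - 1).choose y ∣ (a i).choose u) ∧
      (((Q.factorial ^ 2 - 1).choose y : ℕ) : ℤ) ∣
        g (Sum.elim (Option.elim' (Q.factorial ^ 2 - 1) v) a) := by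
  classical
  constructor
  · intro h
    choose! t ht using h
    -- the bound u
    obtain ⟨u, hu⟩ : ∃ u : ℕ, ∀ k < y, ∀ i, t k i < u := by
      refine ⟨(∑ k ∈ range y, ∑ i, t k i) + 1, fun k hk i => ?_⟩
      have h1 : t k i ≤ ∑ i, t k i := Finset.single_le_sum (f := fun i => t k i)
        (fun _ _ => Nat.zero_le _) (Finset.mem_univ i)
      have h2 : ∑ i, t k i ≤ ∑ k ∈ range y, ∑ i, t k i :=
        Finset.single_le_sum (f := fun k => ∑ i, t k i)
        (fun _ _ => Nat.zero_le _) (Finset.mem_range.mpr hk)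
      omega
    obtain ⟨Q, hQ⟩ : ∃ Q, Q = B (Sum.elim (Option.elim' y v) fun _ => u) + u + y + 3 := ⟨_, rfl⟩
    have hyQ : y < Q := by omega
    have huQ : u ≤ Q := by omega
    have hcop : Set.Pairwise (↑(range y) : Set ℕ)
        (Function.onFun Nat.Coprime (md (Q.factorial ^ 2))) := by
      intro j hj k hk hjk
      simp only [Finset.coe_range, Set.mem_Iio] at hj hk
      exact md_coprime (by omega) (by omega) hjk
    have hcrt : ∀ i : Fin n, ∃ a : ℕ, ∀ k < y, a ≡ t k i [MOD md (Q.factorial ^ 2) k] := by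
      intro i
      obtain ⟨a, ha⟩ := Nat.chineseRemainderOfFinset (fun k => t k i) (md (Q.factorial ^ 2))
        (range y) (fun k hk => md_ne_zero (by rw [Finset.mem_range] at hk; omega) (by omega)) hcop
      exact ⟨a, fun k hk => ha k (Finset.mem_range.mpr hk)⟩
    choose a ha using hcrt
    have hprod : ∏ k ∈ range y, md (Q.factorial ^ 2) k = (Q.factorial ^ 2 - 1).choose y := by
      apply prod_md
      · intro k hk
        exact dvd_trans (Nat.dvd_factorial (Nat.succ_pos k) (by omega))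
          (dvd_pow_self _ (by norm_num))
      · exact pow_pos (Nat.factorial_pos Q) 2
    refine ⟨u, Q, a, hQ, fun i => ?_, ?_⟩
    · rw [← hprod]
      apply Finset.prod_dvd_of_isRelPrime
      · intro j hj k hk hjk
        exact (Nat.coprime_iff_isRelPrime.mp (hcop hj hk hjk))
      · intro k hk
        rw [Finset.mem_range] at hk
        exact md_dvd_choose (by omega) huQ (hu k hk i) (ha i k hk)
    · rw [Int.natCast_dvd, ← hprod]
      apply Finset.prod_dvd_of_isRelPrime
      · intro j hj k hk hjk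
        exact (Nat.coprime_iff_isRelPrime.mp (hcop hj hk hjk))
      · intro k hk
        rw [Finset.mem_range] at hk
        rw [← Int.natCast_dvd]
        have h1 := isPoly_congr hg (q := md (Q.factorial ^ 2) k)
          (x := Sum.elim (Option.elim' (Q.factorial ^ 2 - 1) v) a)
          (y := Sum.elim (Option.elim' k v) (t k)) (by
            intro i
            rcases i with (_ | i) | i
            · exact modEq_md (by omega)
            · exact Nat.ModEq.refl _
            · exact ha i k hk)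
        rw [ht k hk, sub_zero] at h1
        exact h1
  · rintro ⟨u, Q, a, hQ, hch, hdv⟩ k hk
    have hyQ : y < Q := by omega
    have hprod : ∏ k ∈ range y, md (Q.factorial ^ 2) k = (Q.factorial ^ 2 - 1).choose y := by
      apply prod_md
      · intro k hk
        exact dvd_trans (Nat.dvd_factorial (Nat.succ_pos k) (by omega))
          (dvd_pow_self _ (by norm_num))
      · exact pow_pos (Nat.factorial_pos Q) 2
    have hmd1 : md (Q.factorial ^ 2) k ≠ 1 := by
      -- md ≥ 2
      have h1 : (k + 1) ∣ Q.factorial := Nat.dvd_factorial (Nat.succ_pos k) (by omega)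
      obtain ⟨c, hc⟩ := h1
      have hf : 6 ≤ Q.factorial := by
        calc 6 = Nat.factorial 3 := rfl
          _ ≤ Q.factorial := Nat.factorial_le (by omega)
      have hc0 : 0 < c := by
        rcases Nat.eq_zero_or_pos c with h | h
        · subst h; omega
        · exact h
      unfold md
      have : Q.factorial ^ 2 / (k + 1) = c * Q.factorial := by
        rw [pow_two]
        nth_rewrite 1 [hc]
        rw [mul_assoc, Nat.mul_div_cancel_left _ (Nat.succ_pos k)]
      rw [this]
      have : 6 ≤ c * Q.factorial := le_trans hf (Nat.le_mul_of_pos_left _ hc0)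
      omega
    obtain ⟨q, hq, hqd⟩ := Nat.exists_prime_and_dvd hmd1
    have hqQ := lt_prime_of_dvd_md (by omega : k < Q) hq hqd
    have hqM : q ∣ (Q.factorial ^ 2 - 1).choose y := by
      rw [← hprod]
      exact dvd_trans hqd (Finset.dvd_prod_of_mem _ (Finset.mem_range.mpr hk))
    have hex : ∀ i : Fin n, ∃ t < u, a i ≡ t [MOD q] := fun i =>
      exists_lt_modEq hq (dvd_trans hqM (hch i))
    choose t htu htm using hex
    refine ⟨t, ?_⟩
    have h1 := isPoly_congr hg (q := q)
      (x := Sum.elim (Option.elim' (Q.factorial ^ 2 - 1) v) a)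
      (y := Sum.elim (Option.elim' k v) t) (by
        intro i
        rcases i with (_ | i) | i
        · exact (modEq_md (by omega : k < Q)).of_dvd hqd
        · exact Nat.ModEq.refl _
        · exact htm i)
    have h2 : (q : ℤ) ∣ g (Sum.elim (Option.elim' (Q.factorial ^ 2 - 1) v) a) :=
      dvd_trans (by exact_mod_cast hqM) hdv
    have h3 : (q : ℤ) ∣ g (Sum.elim (Option.elim' k v) t) := by
      have := dvd_sub h2 h1
      simpa using this
    have h4 : (g (Sum.elim (Option.elim' k v) t)).natAbs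
        ≤ B (Sum.elim (Option.elim' y v) fun _ => u) := by
      apply hB
      intro i
      rcases i with (_ | i) | i
      · exact le_of_lt hk
      · exact le_refl _
      · exact le_of_lt (htu i)
    have h5 : (g (Sum.elim (Option.elim' k v) t)).natAbs < q := by omega
    rw [Int.natCast_dvd] at h3
    have h6 := Nat.eq_zero_of_dvd_of_lt h3 h5
    exact Int.natAbs_eq_zero.mp h6

/-- BOUNDED UNIVERSAL QUANTIFIER THEOREM. -/
theorem bounded_forall_dioph {α : Type} {S : Set (Option α → ℕ)} (hS : Dioph S)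
    {f : (α → ℕ) → ℕ} (df : Dioph.DiophFn f) :
    Dioph {v : α → ℕ | ∀ k < f v, (Option.elim' k v) ∈ S} := by
  obtain ⟨n, g, hg, hgS⟩ := dioph_fin hS
  obtain ⟨B, hB, dB⟩ := isPoly_bound hg
  -- variables: α, plus u, Q, a
  have hmain : Dioph {x : α ⊕ (Option (Option (Fin n))) → ℕ |
      (x (Sum.inr (some none))
        = B (Sum.elim (Option.elim' (f fun i => x (Sum.inl i)) fun i => x (Sum.inl i))
            fun _ => x (Sum.inr none)) + x (Sum.inr none) + (f fun i => x (Sum.inl i)) + 3) ∧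
      (∀ i, ((x (Sum.inr (some none))).factorial ^ 2 - 1).choose (f fun i => x (Sum.inl i)) ∣
        (x (Sum.inr (some (some i)))).choose (x (Sum.inr none))) ∧
      ((((x (Sum.inr (some none))).factorial ^ 2 - 1).choose
          (f fun i => x (Sum.inl i)) : ℕ) : ℤ) ∣
        g (Sum.elim (Option.elim' ((x (Sum.inr (some none))).factorial ^ 2 - 1)
          fun i => x (Sum.inl i)) fun i => x (Sum.inr (some (some i))))} := by
    have df' : Dioph.DiophFn fun x : α ⊕ (Option (Option (Fin n))) → ℕ =>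
        f fun i => x (Sum.inl i) :=
      Dioph.reindex_diophFn Sum.inl df
    have dW : Dioph.DiophFn fun x : α ⊕ (Option (Option (Fin n))) → ℕ =>
        (x (Sum.inr (some none))).factorial ^ 2 - 1 :=
      Dioph.sub_dioph (Dioph.pow_dioph (factorial_dioph (Dioph.proj_dioph _))
        (Dioph.const_dioph 2)) (Dioph.const_dioph 1)
    have dM := choose_dioph dW df'
    apply Dioph.inter
    · apply Dioph.eq_dioph (Dioph.proj_dioph _)
      apply Dioph.add_dioph _ (Dioph.const_dioph 3)
      apply Dioph.add_dioph _ df'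
      apply Dioph.add_dioph _ (Dioph.proj_dioph _)
      have := dB (α ⊕ (Option (Option (Fin n))))
        (fun i x => Sum.elim (Option.elim' (f fun i => x (Sum.inl i)) fun i => x (Sum.inl i))
            (fun _ => x (Sum.inr none)) i) (by
          intro i
          rcases i with (_ | i) | i
          · exact df'
          · exact Dioph.proj_dioph _
          · exact Dioph.proj_dioph _)
      exact this
    · apply Dioph.inter
      · refine forall_fin_dioph n (fun i => {x : α ⊕ (Option (Option (Fin n))) → ℕ |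
          ((x (Sum.inr (some none))).factorial ^ 2 - 1).choose (f fun i => x (Sum.inl i)) ∣
          (x (Sum.inr (some (some i)))).choose (x (Sum.inr none))}) ?_
        intro i
        exact Dioph.dvd_dioph dM (choose_dioph (Dioph.proj_dioph _) (Dioph.proj_dioph _))
      · exact poly_comp_dioph hg (α ⊕ (Option (Option (Fin n))))
          (fun i x => Sum.elim (Option.elim' ((x (Sum.inr (some none))).factorial ^ 2 - 1)
            fun i => x (Sum.inl i)) (fun i => x (Sum.inr (some (some i)))) i) (by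
          intro i
          rcases i with (_ | i) | i
          · exact dW
          · exact Dioph.proj_dioph _
          · exact Dioph.proj_dioph _) _ dM
  refine Dioph.ext (Dioph.ex_dioph hmain) fun v => ?_
  constructor
  · rintro ⟨x, hx1, hx2, hx3⟩ k hk
    rw [hgS]
    exact (bounded_core g hg B hB v (f v)).mpr
      ⟨x none, x (some none), fun i => x (some (some i)), hx1, hx2, hx3⟩ k hk
  · intro h
    obtain ⟨u, Q, a, h1, h2, h3⟩ := (bounded_core g hg B hB v (f v)).mp
      (fun k hk => (hgS _).mp (h k hk))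
    exact ⟨Option.elim' u (Option.elim' Q a), h1, h2, h3⟩

end MRDP
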