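import Pool.Agent.W_mrdp_h82.Atoms

/-!
MRDP library (helper82), part 5: `MvPolynomial` forms over naturals and integers.
-/

namespace MRDP

open MvPolynomial

theorem isPoly_mv {α : Type} {f : (α → ℕ) → ℤ} (hf : IsPoly f) :
    ∃ P : MvPolynomial α ℤ, ∀ x : α → ℕ, f x = eval (fun i => (x i : ℤ)) P := by
  induction hf with
  | proj i => exact ⟨X i, fun x => by simp⟩
  | const n => exact ⟨C n, fun x => by simp⟩
  | @sub f g _ _ ih1 ih2 =>
    obtain ⟨P, hP⟩ := ih1
    obtain ⟨Q, hQ⟩ := ih2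
    exact ⟨P - Q, fun x => by
      show f x - g x = _
      rw [hP, hQ, map_sub]⟩
  | @mul f g _ _ ih1 ih2 =>
    obtain ⟨P, hP⟩ := ih1
    obtain ⟨Q, hQ⟩ := ih2
    exact ⟨P * Q, fun x => by
      show f x * g x = _
      rw [hP, hQ, map_mul]⟩

/-- MRDP: one integer polynomial in variables `Option (Fin m)`, `none` the parameter,
natural unknowns. -/
theorem mrdp_mv {p : ℕ → Prop} (hp : REPred p) :
    ∃ (m : ℕ) (P : MvPolynomial (Option (Fin m)) ℤ), ∀ n : ℕ, p n ↔
      ∃ t : Fin m → ℕ, eval (fun i => ((Option.elim i n t : ℕ) : ℤ)) P = 0 := by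
  obtain ⟨m, g, hg, h⟩ := dioph_fin (mrdp hp)
  obtain ⟨P, hP⟩ := isPoly_mv hg
  refine ⟨m, rename (Sum.elim (fun _ => none) (fun i => some i)) P, fun n => ?_⟩
  have h2 : p n ↔ ∃ t : Fin m → ℕ, g (Sum.elim (fun _ => n) t) = 0 := h (fun _ => n)
  rw [h2]
  apply exists_congr
  intro t
  rw [hP, eval_rename]
  have e : ((fun i : Option (Fin m) => ((Option.elim i n t : ℕ) : ℤ)) ∘
      (Sum.elim (fun _ => none) (fun i => some i) : Option Empty ⊕ Fin m → Option (Fin m)))
      = fun i => ((Sum.elim (fun _ => n) t i : ℕ) : ℤ) := by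
    funext i
    rcases i with i | i <;> rfl
  rw [e]

/-- MRDP over the integers: the unknowns range over `Int` (Lagrange four squares). -/
theorem mrdp_mv_int {p : ℕ → Prop} (hp : REPred p) :
    ∃ (m : ℕ) (P : MvPolynomial (Option (Fin m)) ℤ), ∀ n : ℕ, p n ↔
      ∃ t : Fin m → ℤ, eval (fun i => (Option.elim i (n : ℤ) t : ℤ)) P = 0 := by
  obtain ⟨m, P, h⟩ := mrdp_mv hp
  let sq : Option (Fin m) → MvPolynomial (Option (Fin m × Fin 4)) ℤ := fun i =>
    match i with
    | none => X none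
    | some i => ∑ j : Fin 4, (X (some (i, j))) ^ 2
  let Q : MvPolynomial (Option (Fin m × Fin 4)) ℤ := bind₁ sq P
  let e : Fin m × Fin 4 ≃ Fin (m * 4) := finProdFinEquiv
  refine ⟨m * 4, rename (Option.map e) Q, fun n => ?_⟩
  rw [h]
  have hev : ∀ t : Fin (m * 4) → ℤ, eval (fun i => (Option.elim i (n : ℤ) t : ℤ))
      (rename (Option.map e) Q) =
      eval (fun i => (Option.elim i (n : ℤ) (fun i => ∑ j : Fin 4, (t (e (i, j))) ^ 2) : ℤ)) P := by
    intro t
    rw [eval_rename]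
    show eval _ (bind₁ sq P) = _
    rw [← aeval_eq_eval, ← aeval_eq_eval]
    rw [aeval_bind₁]
    congr 1
    congr 1
    funext i
    rcases i with _ | i
    · simp [sq]
    · simp [sq]
  constructor
  · rintro ⟨t, ht⟩
    have h4 : ∀ a : ℕ, ∃ s : Fin 4 → ℤ, ∑ j : Fin 4, (s j) ^ 2 = (a : ℤ) := by
      intro a
      obtain ⟨x, y, z, w, hh⟩ := Nat.sum_four_squares a
      refine ⟨![x, y, z, w], ?_⟩
      rw [Fin.sum_univ_four]
      simp only [Matrix.cons_val]
      exact_mod_cast hh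
    choose s hs using h4
    refine ⟨fun k => s (t (e.symm k).1) (e.symm k).2, ?_⟩
    rw [hev]
    rw [← ht]
    congr 2
    funext i
    rcases i with _ | i
    · rfl
    · simp [hs]
  · rintro ⟨t, ht⟩
    rw [hev] at ht
    refine ⟨fun i => (∑ j : Fin 4, (t (e (i, j))) ^ 2).toNat, ?_⟩
    rw [← ht]
    congr 2
    funext i
    rcases i with _ | i
    · rfl
    · simp only [Option.elim]
      rw [Int.toNat_of_nonneg]
      exact Finset.sum_nonneg fun _ _ => sq_nonneg _

/-- Hilbert's tenth problem over the integers, one-parameter family. -/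
theorem undecidable_mv_int : ∃ (m : ℕ) (P : MvPolynomial (Option (Fin m)) ℤ),
    ¬ ComputablePred fun n : ℕ =>
      ∃ t : Fin m → ℤ, eval (fun i => (Option.elim i (n : ℤ) t : ℤ)) P = 0 := by
  obtain ⟨p, hp, hn⟩ := exists_re_not_computable
  obtain ⟨m, P, h⟩ := mrdp_mv_int hp
  refine ⟨m, P, ?_⟩
  rwa [show (fun n : ℕ => ∃ t : Fin m → ℤ,
    eval (fun i => (Option.elim i (n : ℤ) t : ℤ)) P = 0) = p from
    funext fun n => propext (h n).symm]

end MRDP
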