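import Pool.Agent.W_mrdp_h82.Bounded

/-!
MRDP library (helper82), part 3: graphs of partial recursive functions are Diophantine.
-/

namespace MRDP

open Dioph

section basics

variable {α : Type} {f g : (α → ℕ) → ℕ}

theorem ex_d {P : ℕ → (α → ℕ) → Prop}
    (h : Dioph {x : Option α → ℕ | P (x none) (fun i => x (some i))}) :
    Dioph {v : α → ℕ | ∃ k, P k v} :=
  Dioph.ext (Dioph.ex1_dioph h) fun _ => Iff.rfl

theorem all_lt_d {P : ℕ → (α → ℕ) → Prop}
    (h : Dioph {x : Option α → ℕ | P (x none) (fun i => x (some i))}) (df : DiophFn f) :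
    Dioph {v : α → ℕ | ∀ k < f v, P k v} :=
  Dioph.ext (bounded_forall_dioph h df) fun _ => Iff.rfl

theorem and_d {P Q : (α → ℕ) → Prop} (h1 : Dioph {v | P v}) (h2 : Dioph {v | Q v}) :
    Dioph {v | P v ∧ Q v} := Dioph.inter h1 h2

theorem or_d {P Q : (α → ℕ) → Prop} (h1 : Dioph {v | P v}) (h2 : Dioph {v | Q v}) :
    Dioph {v | P v ∨ Q v} := Dioph.union h1 h2

theorem iff_d {P Q : (α → ℕ) → Prop} (h1 : Dioph {v | P v}) (h : ∀ v, P v ↔ Q v) :
    Dioph {v | Q v} := Dioph.ext h1 h

/-- lift to one more variable -/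
theorem lift (df : DiophFn f) : DiophFn fun x : Option α → ℕ => f (fun i => x (some i)) :=
  reindex_diophFn some df

theorem pair_dioph (df : DiophFn f) (dg : DiophFn g) :
    DiophFn fun v => Nat.pair (f v) (g v) := by
  have h : Dioph {x : Option α → ℕ |
      (f (fun i => x (some i)) < g (fun i => x (some i)) ∧
        g (fun i => x (some i)) * g (fun i => x (some i)) + f (fun i => x (some i)) = x none) ∨
      (g (fun i => x (some i)) ≤ f (fun i => x (some i)) ∧
        f (fun i => x (some i)) * f (fun i => x (some i)) + f (fun i => x (some i))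
          + g (fun i => x (some i)) = x none)} := by
    have d1 := lift df
    have d2 := lift dg
    have d0 : DiophFn fun x : Option α → ℕ => x none := proj_dioph none
    exact or_d (and_d (lt_dioph d1 d2) (eq_dioph (add_dioph (mul_dioph d2 d2) d1) d0))
      (and_d (le_dioph d2 d1) (eq_dioph (add_dioph (add_dioph (mul_dioph d1 d1) d1) d2) d0))
  refine Dioph.ext h fun x => ?_
  show _ ↔ Nat.pair (f (x ∘ some)) (g (x ∘ some)) = x none
  show (f (x ∘ some) < g (x ∘ some) ∧ g (x ∘ some) * g (x ∘ some) + f (x ∘ some) = x none) ∨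
      (g (x ∘ some) ≤ f (x ∘ some) ∧
        f (x ∘ some) * f (x ∘ some) + f (x ∘ some) + g (x ∘ some) = x none) ↔ _
  unfold Nat.pair
  split_ifs with hlt
  · constructor
    · rintro (⟨_, h⟩ | ⟨h, _⟩)
      · exact h
      · omega
    · intro h
      exact Or.inl ⟨hlt, h⟩
  · constructor
    · rintro (⟨h, _⟩ | ⟨_, h⟩)
      · exact absurd h hlt
      · exact h
    · intro h
      exact Or.inr ⟨by omega, h⟩

theorem unpair1_dioph (df : DiophFn f) : DiophFn fun v => (Nat.unpair (f v)).1 := by
  have h : Dioph {x : Option α → ℕ | ∃ b, Nat.pair (x none) b = f (fun i => x (some i))} := by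
    refine ex_d (P := fun b x => Nat.pair (x none) b = f (fun i => x (some i))) ?_
    exact eq_dioph (pair_dioph (proj_dioph (some none)) (proj_dioph none)) (lift (lift df))
  refine Dioph.ext h fun x => ?_
  show (∃ b, Nat.pair (x none) b = f (x ∘ some)) ↔ (Nat.unpair (f (x ∘ some))).1 = x none
  constructor
  · rintro ⟨b, hb⟩
    rw [← hb, Nat.unpair_pair]
  · intro h
    refine ⟨(Nat.unpair (f (x ∘ some))).2, ?_⟩
    rw [← h, Nat.pair_unpair]

theorem unpair2_dioph (df : DiophFn f) : DiophFn fun v => (Nat.unpair (f v)).2 := by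
  have h : Dioph {x : Option α → ℕ | ∃ b, Nat.pair b (x none) = f (fun i => x (some i))} := by
    refine ex_d (P := fun b x => Nat.pair b (x none) = f (fun i => x (some i))) ?_
    exact eq_dioph (pair_dioph (proj_dioph none) (proj_dioph (some none))) (lift (lift df))
  refine Dioph.ext h fun x => ?_
  show (∃ b, Nat.pair b (x none) = f (x ∘ some)) ↔ (Nat.unpair (f (x ∘ some))).2 = x none
  constructor
  · rintro ⟨b, hb⟩
    rw [← hb, Nat.unpair_pair]
  · intro h
    refine ⟨(Nat.unpair (f (x ∘ some))).1, ?_⟩
    rw [← h, Nat.pair_unpair]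

theorem beta_dioph (df : DiophFn f) (dg : DiophFn g) :
    DiophFn fun v => Nat.beta (f v) (g v) := by
  have h : DiophFn fun v => (Nat.unpair (f v)).1 %
      ((g v + 1) * (Nat.unpair (f v)).2 + 1) :=
    mod_dioph (unpair1_dioph df)
      (add_dioph (mul_dioph (add_dioph dg (const_dioph 1)) (unpair2_dioph df)) (const_dioph 1))
  exact h

end basics

/-- binary relation with a Diophantine graph -/
def DR (R : ℕ → ℕ → Prop) : Prop := Dioph {v : Option (Option Empty) → ℕ | R (v none) (v (some none))}

theorem DR.comp {R : ℕ → ℕ → Prop} (h : DR R) {α : Type} {f g : (α → ℕ) → ℕ}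
    (df : DiophFn f) (dg : DiophFn g) : Dioph {v : α → ℕ | R (f v) (g v)} := by
  have h2 : Dioph {x : Option (Option α) → ℕ |
      x none = f (fun i => x (some (some i))) ∧ x (some none) = g (fun i => x (some (some i))) ∧
      R (x none) (x (some none))} := by
    refine and_d (eq_dioph (proj_dioph _) (lift (lift df)))
      (and_d (eq_dioph (proj_dioph _) (lift (lift dg))) ?_)
    have := Dioph.reindex_dioph (Option (Option α))
      (fun i : Option (Option Empty) => match i with
        | none => none
        | some none => some none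
        | some (some e) => e.elim) h
    exact this
  have h3 := ex_d (P := fun a (x : Option α → ℕ) =>
      a = f (fun i => x (some i)) ∧ x none = g (fun i => x (some i)) ∧
      R a (x none)) h2
  have h4 := ex_d (P := fun b (v : α → ℕ) => ∃ a, a = f v ∧ b = g v ∧ R a b) h3
  refine iff_d h4 fun v => ?_
  constructor
  · rintro ⟨b, a, rfl, rfl, h⟩
    exact h
  · intro h
    exact ⟨_, _, rfl, rfl, h⟩

theorem DR.mk' {R : ℕ → ℕ → Prop}
    (h : Dioph {v : Option (Option Empty) → ℕ | R (v none) (v (some none))}) : DR R := h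

/-- characterisation of primitive recursion by the beta function -/
theorem prec_iff (F : Part ℕ) (G : ℕ → ℕ → Part ℕ) (m z : ℕ) :
    (z ∈ (Nat.rec F (fun y IH => IH >>= fun i => G y i) m : Part ℕ)) ↔
    ∃ c, Nat.beta c 0 ∈ F ∧ (∀ i < m, Nat.beta c (i + 1) ∈ G i (Nat.beta c i)) ∧
      Nat.beta c m = z := by
  constructor
  · intro h
    -- build a list of values
    have key : ∀ m z, (z ∈ (Nat.rec F (fun y IH => IH >>= fun i => G y i) m : Part ℕ)) →
        ∃ s : ℕ → ℕ, s 0 ∈ F ∧ (∀ i < m, s (i + 1) ∈ G i (s i)) ∧ s m = z := by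
      intro m
      induction m with
      | zero => intro z hz; exact ⟨fun _ => z, hz, by simp, rfl⟩
      | succ m ih =>
        intro z hz
        obtain ⟨i, hi, hz'⟩ := Part.mem_bind_iff.mp hz
        obtain ⟨s, h0, hs, hm⟩ := ih i hi
        refine ⟨fun j => if j ≤ m then s j else z, by simpa using h0, fun j hj => ?_, by simp⟩
        rcases Nat.lt_or_ge j m with hjm | hjm
        · have h1 : j + 1 ≤ m := hjm
          have h2 : j ≤ m := by omega
          simp only [h1, h2, if_true]
          exact hs j hjm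
        · have h3 : j = m := by omega
          subst h3
          simp only [le_refl, if_true, Nat.not_succ_le_self, if_false]
          rw [hm]
          exact hz'
    obtain ⟨s, h0, hs, hm⟩ := key m z h
    let l : List ℕ := List.ofFn (fun i : Fin (m + 1) => s i)
    have hl : l.length = m + 1 := by simp [l]
    have hb : ∀ i, i ≤ m → Nat.beta (Nat.unbeta l) i = s i := by
      intro i hi
      have := Nat.beta_unbeta_coe l ⟨i, by omega⟩
      rw [show Nat.beta (Nat.unbeta l) i = Nat.beta (Nat.unbeta l)
        (((⟨i, by omega⟩ : Fin l.length)) : ℕ) from rfl, this]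
      show l[i]'(by omega) = s i
      simp only [l, List.getElem_ofFn]
    refine ⟨Nat.unbeta l, ?_, ?_, ?_⟩
    · rw [hb 0 (Nat.zero_le _)]; exact h0
    · intro i hi
      rw [hb i (by omega), hb (i + 1) hi]
      exact hs i hi
    · rw [hb m le_rfl]; exact hm
  · rintro ⟨c, h0, hs, hm⟩
    have key : ∀ j ≤ m, Nat.beta c j ∈
        (Nat.rec F (fun y IH => IH >>= fun i => G y i) j : Part ℕ) := by
      intro j
      induction j with
      | zero => intro _; exact h0
      | succ j ih =>
        intro hj
        exact Part.mem_bind_iff.mpr ⟨Nat.beta c j, ih (by omega), hs j hj⟩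
    rw [← hm]
    exact key m le_rfl

/-- THE GRAPH OF A PARTIAL RECURSIVE FUNCTION IS DIOPHANTINE. -/
theorem partrec_dioph {f : ℕ →. ℕ} (hf : Nat.Partrec f) : DR fun n z => z ∈ f n := by
  have p0 : DiophFn fun v : Option (Option Empty) → ℕ => v none := proj_dioph _
  have p1 : DiophFn fun v : Option (Option Empty) → ℕ => v (some none) := proj_dioph _
  induction hf with
  | zero =>
    refine DR.mk' (iff_d (eq_dioph p1 (const_dioph 0)) fun v => ?_)
    show v (some none) = 0 ↔ v (some none) ∈ Part.some 0
    rw [Part.mem_some_iff]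
  | succ =>
    refine DR.mk' (iff_d (eq_dioph p1 (add_dioph p0 (const_dioph 1))) fun v => ?_)
    show v (some none) = v none + 1 ↔ v (some none) ∈ Part.some (Nat.succ (v none))
    rw [Part.mem_some_iff]
  | left =>
    refine DR.mk' (iff_d (eq_dioph p1 (unpair1_dioph p0)) fun v => ?_)
    show v (some none) = (Nat.unpair (v none)).1 ↔
      v (some none) ∈ Part.some (Nat.unpair (v none)).1
    rw [Part.mem_some_iff]
  | right =>
    refine DR.mk' (iff_d (eq_dioph p1 (unpair2_dioph p0)) fun v => ?_)
    show v (some none) = (Nat.unpair (v none)).2 ↔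
      v (some none) ∈ Part.some (Nat.unpair (v none)).2
    rw [Part.mem_some_iff]
  | @pair f g _ _ ihf ihg =>
    have h1 := ex_d (P := fun b (x : Option (Option (Option Empty)) → ℕ) =>
        x none ∈ f (x (some none)) ∧ b ∈ g (x (some none)) ∧
          x (some (some none)) = Nat.pair (x none) b) (by
      refine and_d (ihf.comp (proj_dioph _) (proj_dioph _))
        (and_d (ihg.comp (proj_dioph _) (proj_dioph _)) ?_)
      exact eq_dioph (proj_dioph _) (pair_dioph (proj_dioph _) (proj_dioph _)))
    have h2 := ex_d (P := fun a (x : Option (Option Empty) → ℕ) =>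
        ∃ b, a ∈ f (x none) ∧ b ∈ g (x none) ∧
          x (some none) = Nat.pair a b) h1
    refine DR.mk' (iff_d h2 fun v => ?_)
    simp only [Part.mem_bind_iff, Part.mem_map_iff, Seq.seq, Part.map_eq_map]
    constructor
    · rintro ⟨a, b, ha, hb, e⟩
      exact ⟨Nat.pair a, ⟨a, ha, rfl⟩, b, hb, e.symm⟩
    · rintro ⟨_, ⟨a, ha, rfl⟩, b, hb, e⟩
      exact ⟨a, b, ha, hb, e.symm⟩
  | @comp f g _ _ ihf ihg =>
    have h1 := ex_d (P := fun a (x : Option (Option Empty) → ℕ) =>
        a ∈ g (x none) ∧ x (some none) ∈ f a) (by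
      exact and_d (ihg.comp (proj_dioph _) (proj_dioph _))
        (ihf.comp (proj_dioph _) (proj_dioph _)))
    refine DR.mk' (iff_d h1 fun v => ?_)
    exact Part.mem_bind_iff.symm
  | @prec f g _ _ ihf ihg =>
    have h1 := ex_d (P := fun c (x : Option (Option Empty) → ℕ) =>
        Nat.beta c 0 ∈ f (Nat.unpair (x none)).1 ∧
        (∀ i < (Nat.unpair (x none)).2,
          Nat.beta c (i + 1) ∈ g (Nat.pair (Nat.unpair (x none)).1
            (Nat.pair i (Nat.beta c i)))) ∧
        Nat.beta c (Nat.unpair (x none)).2 = x (some none)) (by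
      refine and_d (ihf.comp (unpair1_dioph (proj_dioph _))
        (beta_dioph (proj_dioph _) (const_dioph 0))) (and_d ?_ ?_)
      · refine all_lt_d (P := fun i (x : Option (Option (Option Empty)) → ℕ) =>
          Nat.beta (x none) (i + 1) ∈ g (Nat.pair (Nat.unpair (x (some none))).1
            (Nat.pair i (Nat.beta (x none) i)))) ?_ (unpair2_dioph (proj_dioph _))
        refine ihg.comp (pair_dioph (unpair1_dioph (proj_dioph _))
          (pair_dioph (proj_dioph _) (beta_dioph (proj_dioph _) (proj_dioph _)))) ?_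
        exact beta_dioph (proj_dioph _) (add_dioph (proj_dioph _) (const_dioph 1))
      · exact eq_dioph (beta_dioph (proj_dioph _) (unpair2_dioph (proj_dioph _)))
          (proj_dioph _))
    refine DR.mk' (iff_d h1 fun v => ?_)
    exact (prec_iff (f (Nat.unpair (v none)).1)
      (fun y i => g (Nat.pair (Nat.unpair (v none)).1 (Nat.pair y i)))
      (Nat.unpair (v none)).2 (v (some none))).symm
  | @rfind f _ ihf =>
    have h1 : Dioph {x : Option (Option Empty) → ℕ |
        0 ∈ f (Nat.pair (x none) (x (some none))) ∧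
        ∀ k < x (some none), ∃ y, y ∈ f (Nat.pair (x none) k) ∧ 0 < y} := by
      refine and_d (ihf.comp (pair_dioph (proj_dioph _) (proj_dioph _)) (const_dioph 0)) ?_
      refine all_lt_d (P := fun k (x : Option (Option Empty) → ℕ) =>
        ∃ y, y ∈ f (Nat.pair (x none) k) ∧ 0 < y) ?_ (proj_dioph _)
      refine ex_d (P := fun y (x : Option (Option (Option Empty)) → ℕ) =>
        y ∈ f (Nat.pair (x (some none)) (x none)) ∧ 0 < y) ?_
      exact and_d (ihf.comp (pair_dioph (proj_dioph _) (proj_dioph _)) (proj_dioph _))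
        (lt_dioph (const_dioph 0) (proj_dioph _))
    refine DR.mk' (iff_d h1 fun v => ?_)
    have hmm := @Nat.mem_rfind (fun n => (fun m => decide (m = 0)) <$> f (Nat.pair (v none) n))
      (v (some none))
    refine Iff.trans ?_ hmm.symm
    simp only [Part.map_eq_map, Part.mem_map_iff]
    constructor
    · rintro ⟨h0, h⟩
      refine ⟨⟨0, h0, by simp⟩, fun {m} hm => ?_⟩
      obtain ⟨y, hy, hy0⟩ := h m hm
      exact ⟨y, hy, by simp; omega⟩
    · rintro ⟨⟨a, ha, ha0⟩, h⟩
      have : a = 0 := by simpa using ha0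
      subst this
      refine ⟨ha, fun k hk => ?_⟩
      obtain ⟨y, hy, hy0⟩ := h hk
      refine ⟨y, hy, ?_⟩
      have : y ≠ 0 := by simpa using hy0
      omega

/-- MRDP: recursively enumerable sets of naturals are Diophantine. -/
theorem mrdp {p : ℕ → Prop} (hp : REPred p) : Dioph {v : Option Empty → ℕ | p (v none)} := by
  have h1 : Nat.Partrec _ := hp
  have h2 := partrec_dioph h1
  have h3 := ex_d (P := fun z (x : Option Empty → ℕ) =>
      z ∈ (Part.bind (Encodable.decode (α := ℕ) (x none) : Part ℕ) fun a =>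
        ((fun a => Part.assert (p a) fun _ => Part.some ()) a).map Encodable.encode))
      (h2.comp (proj_dioph _) (proj_dioph _))
  refine iff_d h3 fun v => ?_
  simp

end MRDP
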